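import Pool.Agent.LibQ9.QMain

/-!
MP_407a6b_ag, Q1 for all `p > n ≥ 4`: a smooth hypersurface of degree `n` in `P^n` over the function
field `K` of a curve over an algebraically closed field of characteristic `p > n` has infinitely many
`K`-points.
-/

set_option autoImplicit false

namespace Pool.Agent.Results.MP_407a6b_ag.InfinitelyManySections

open MvPolynomial

/-- The hypersurface `F = 0` is smooth over the algebraic closure of `K`: the partial derivatives of
`F` have no common zero there except the origin. -/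
def IsSmooth {K : Type} [Field K] {n : ℕ} (F : MvPolynomial (Fin n) K) : Prop :=
  ∀ x : Fin n → AlgebraicClosure K, (∀ i, aeval x (pderiv i F) = 0) → x = 0

/-- The vector `Q` represents a `K`-point of the hypersurface `F = 0`. -/
def IsPoint {K : Type} [Field K] {n : ℕ} (F : MvPolynomial (Fin n) K) (Q : Fin n → K) : Prop :=
  Q ≠ 0 ∧ eval Q F = 0

theorem result (p : ℕ) [Fact p.Prime] (n : ℕ) (hn : 4 ≤ n) (hp : n < p) (k K : Type) [Field k]
    [IsAlgClosed k] [CharP k p] [Field K] [Algebra k K] [Algebra.EssFiniteType k K]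
    (htr : Algebra.trdeg k K = 1) (F : MvPolynomial (Fin (n + 1)) K) (hF : F.IsHomogeneous n)
    (hs : IsSmooth F) (S : Finset (Fin (n + 1) → K)) :
    ∃ Q : Fin (n + 1) → K, IsPoint F Q ∧ ∀ R ∈ S, ∀ c : K, Q ≠ fun i => c * R i := by
  obtain ⟨Q, h1, h2, h3⟩ := Q9.infinitely_many p hn hp htr F hF hs S
  refine ⟨Q, ⟨h1, ?_⟩, h3⟩
  rw [← coe_aeval_eq_eval]
  exact h2

end Pool.Agent.Results.MP_407a6b_ag.InfinitelyManySections
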