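import Pool.Agent.LibQB46.R2

/-!
MP_407a6b_ag, the case `p ≤ n`: weak approximation for families of hypersurfaces of degree `n = q + 1` in `P^n`,
`q ≥ 3` a power of the characteristic `p`, at the places where the fibre is a smooth q-bic hypersurface
(for example a Fermat hypersurface).
-/

set_option autoImplicit false

namespace Pool.Agent.Results.MP_407a6b_ag.QbicHypersurfaces

open MvPolynomial

/-- `F` is a `q`-bic form: `F = ∑ H i j x_i^q x_j` for a matrix `H`. -/
def IsQbic (q : ℕ) {K : Type} [CommRing K] {m : ℕ} (F : MvPolynomial (Fin m) K) : Prop :=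
  ∃ H : Fin m → Fin m → K, F = ∑ i, ∑ j, C (H i j) * X i ^ q * X j

/-- The hypersurface `F = 0` is smooth over the algebraic closure of `K`: the partial derivatives of
`F` have no common zero there except the origin. -/
def IsSmooth {K : Type} [Field K] {m : ℕ} (F : MvPolynomial (Fin m) K) : Prop :=
  ∀ x : Fin m → AlgebraicClosure K, (∀ i, aeval x (pderiv i F) = 0) → x = 0

/-- `A` is a place of `K` over `k`: a valuation ring of `K`, not `K`, which contains `k`. -/
def IsPlace (k : Type) {K : Type} [Field k] [Field K] [Algebra k K] (A : ValuationSubring K) : Prop :=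
  (∀ c : k, algebraMap k K c ∈ A) ∧ A ≠ ⊤

/-- `G` is an equation over the valuation ring `A` of the hypersurface `F = 0` (a nonzero multiple of `F`)
whose reduction modulo the maximal ideal is a smooth q-bic hypersurface. -/
def IsQbicModel (q : ℕ) {K : Type} [Field K] {m : ℕ} (F : MvPolynomial (Fin m) K) (A : ValuationSubring K)
    (G : MvPolynomial (Fin m) A) : Prop :=
  (∃ c : K, c ≠ 0 ∧ map (algebraMap A K) G = C c * F) ∧
    IsSmooth (map (IsLocalRing.residue A) G) ∧ IsQbic q (map (IsLocalRing.residue A) G)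

/-- `x` is a jet of order `N` of a section of `G = 0` over `A`: `x` is not zero modulo the maximal
ideal `m` and `G(x)` is zero modulo `m ^ N`. -/
def IsJet {K : Type} [Field K] {m : ℕ} (A : ValuationSubring K) (G : MvPolynomial (Fin m) A)
    (N : ℕ) (x : Fin m → A) : Prop :=
  (∃ i, x i ∉ IsLocalRing.maximalIdeal A) ∧ eval x G ∈ IsLocalRing.maximalIdeal A ^ N

theorem result (p : ℕ) [Fact p.Prime] (q r : ℕ) (hq : q = p ^ r) (hq3 : 3 ≤ q) (k K : Type)
    [Field k] [IsAlgClosed k] [CharP k p] [Field K] [Algebra k K] [Algebra.EssFiniteType k K]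
    (htr : Algebra.trdeg k K = 1) (F : MvPolynomial (Fin (q + 2)) K) (hF : F.IsHomogeneous (q + 1))
    (hs : IsSmooth F) (s : ℕ) (A : Fin s → ValuationSubring K) (hA : Function.Injective A)
    (hP : ∀ j, IsPlace k (A j)) (G : ∀ j, MvPolynomial (Fin (q + 2)) (A j))
    (hG : ∀ j, IsQbicModel q F (A j) (G j)) (N : ℕ) (x : ∀ j, Fin (q + 2) → A j)
    (hx : ∀ j, IsJet (A j) (G j) N (x j)) :
    ∃ X : Fin (q + 2) → K, X ≠ 0 ∧ eval X F = 0 ∧ ∀ j, ∃ Y : Fin (q + 2) → A j,
      (∀ i, (Y i : K) = X i) ∧ ∀ i, Y i - x j i ∈ IsLocalRing.maximalIdeal (A j) ^ N := by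
  choose c hc hG' using fun j => (hG j).1
  exact QB46.wa_qbic (k := k) p htr hq hq3 F hF hs A hA (fun j => (hP j).1) (fun j => (hP j).2)
    c hc G hG' (fun j => (hG j).2.1) (fun j => (hG j).2.2) N x (fun j => (hx j).1) fun j => (hx j).2

end Pool.Agent.Results.MP_407a6b_ag.QbicHypersurfaces
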