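import Pool.Agent.LibSU9.E4

/-!
MP_407a6b_ag: in characteristic `p > n` every integral hypersurface of degree `n` in `P^n` is
separably uniruled: free rational curves of degree at most `⌈p/n⌉` through the generic point, over an
extension of the function field of degree prime to `p`.
-/

set_option autoImplicit false

namespace Pool.Agent.Results.MP_407a6b_ag.SeparablyUniruled

open MvPolynomial

/-- `κ` is a finite extension of `Ω` of degree prime to `p`. -/
def PrimeTo (p : ℕ) (Ω κ : Type) [Field Ω] [Field κ] [Algebra Ω κ] : Prop :=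
  FiniteDimensional Ω κ ∧ ¬ p ∣ Module.finrank Ω κ

/-- `γ` is a rational curve of degree at most `e` on the hypersurface `F = 0` through `y`, over the
field `κ` (`ι` maps the coefficients of `F` to `κ`): a vector of polynomials `γ(t)` of degree at most
`e` with `γ(0) = y` and `F(γ) = 0`, which is not of the form `l(t) y`. -/
def IsCurve {K κ : Type} [Field K] [Field κ] {n : ℕ} (F : MvPolynomial (Fin n) K) (ι : K →+* κ)
    (e : ℕ) (y : Fin n → κ) (γ : Fin n → Polynomial κ) : Prop :=
  (∀ i, (γ i).natDegree ≤ e) ∧ (∀ i, (γ i).coeff 0 = y i) ∧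
    eval₂ (Polynomial.C.comp ι) γ F = 0 ∧ ¬ ∃ l : Polynomial κ, ∀ i, γ i = l * Polynomial.C (y i)

/-- The curve `γ` through `y` is free: for every `w` with `∇F(y)·w = 0` there is a vector of
polynomials `δ` of degree at most `e` with `δ(0) = w` and `∇F(γ)·δ = 0`. -/
def IsFree {K κ : Type} [Field K] [Field κ] {n : ℕ} (F : MvPolynomial (Fin n) K) (ι : K →+* κ)
    (e : ℕ) (y : Fin n → κ) (γ : Fin n → Polynomial κ) : Prop :=
  ∀ w : Fin n → κ, ∑ i, eval₂ ι y (pderiv i F) * w i = 0 →
    ∃ δ : Fin n → Polynomial κ, (∀ i, (δ i).natDegree ≤ e) ∧ (∀ i, (δ i).coeff 0 = w i) ∧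
      ∑ i, eval₂ (Polynomial.C.comp ι) γ (pderiv i F) * δ i = 0

/-- `y` is a generic point of the hypersurface `F = 0` over `K` and `Ω = K(y)` (the function field of
the cone over the hypersurface): the polynomials over `K` vanishing at `y` are the multiples of `F`,
and every element of `Ω` is a quotient of values at `y` of polynomials over `K` (`ι` is the
inclusion of `K`). -/
def IsGeneric {K Ω : Type} [Field K] [Field Ω] {n : ℕ} (F : MvPolynomial (Fin n) K) (ι : K →+* Ω)
    (y : Fin n → Ω) : Prop :=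
  (∀ g : MvPolynomial (Fin n) K, eval₂ ι y g = 0 ↔ F ∣ g) ∧
    ∀ z : Ω, ∃ a b : MvPolynomial (Fin n) K, z = eval₂ ι y a / eval₂ ι y b

private theorem transfer {K : Type} [Field K] (p : ℕ) [Fact p.Prime] [CharP K p] {n : ℕ}
    (h2 : 2 ≤ n) (hn : n < p) (F : MvPolynomial (Fin (n + 1)) K) (hF : F.IsHomogeneous n)
    (Ω : Type) [Field Ω] (φ : MvPolynomial (Fin (n + 1)) K →+* Ω)
    (hker : RingHom.ker φ = Ideal.span {F})
    (hfrac : ∀ z : Ω, ∃ a b : MvPolynomial (Fin (n + 1)) K, z = φ a / φ b) :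
    ∃ (κ : Type) (_ : Field κ) (_ : Algebra Ω κ), PrimeTo p Ω κ ∧
      ∃ γ, IsCurve F ((algebraMap Ω κ).comp (φ.comp C)) ((p + n - 1) / n)
          (fun i => algebraMap Ω κ (φ (X i))) γ ∧
        IsFree F ((algebraMap Ω κ).comp (φ.comp C)) ((p + n - 1) / n)
          (fun i => algebraMap Ω κ (φ (X i))) γ := by
  have hP : (Ideal.span {F}).IsPrime := by
    rw [← hker]
    exact RingHom.ker_isPrime φ
  let S := MvPolynomial (Fin (n + 1)) K ⧸ Ideal.span {F}
  let φ' : S →+* Ω := Ideal.Quotient.lift (Ideal.span {F}) φ (fun a ha => by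
    rw [← hker] at ha
    exact ha)
  have hφ' : ∀ a, φ' (Ideal.Quotient.mk _ a) = φ a := fun a => rfl
  have hinj : Function.Injective φ' := by
    rw [injective_iff_map_eq_zero]
    intro s hs
    obtain ⟨a, rfl⟩ := Ideal.Quotient.mk_surjective s
    rw [hφ'] at hs
    rw [Ideal.Quotient.eq_zero_iff_mem, ← hker]
    exact hs
  let ψ : FractionRing S →+* Ω := IsFractionRing.lift hinj
  have hψ : ∀ a, ψ (algebraMap S (FractionRing S) (Ideal.Quotient.mk _ a)) = φ a := by
    intro a
    rw [← hφ' a]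
    exact IsFractionRing.lift_algebraMap hinj _
  have hbij : Function.Bijective ψ := by
    refine ⟨ψ.injective, fun z => ?_⟩
    obtain ⟨a, b, rfl⟩ := hfrac z
    refine ⟨algebraMap S (FractionRing S) (Ideal.Quotient.mk _ a) /
      algebraMap S (FractionRing S) (Ideal.Quotient.mk _ b), ?_⟩
    rw [map_div₀, hψ, hψ]
  let e : FractionRing S ≃+* Ω := RingEquiv.ofBijective ψ hbij
  have he : ∀ a, e (algebraMap S (FractionRing S) (Ideal.Quotient.mk _ a)) = φ a := hψ
  obtain ⟨κ, i1, i2, h3, h4, ι, y, γ, h5, h6, h7, h8, h9, h10, h11⟩ :=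
    LibSU9.generic_free p h2 hn F hF
  let alg : Algebra Ω κ := ((algebraMap (FractionRing S) κ).comp (e.symm : Ω →+* _)).toAlgebra
  have hal : ∀ z : FractionRing S, algebraMap Ω κ (e z) = algebraMap (FractionRing S) κ z := by
    intro z
    change algebraMap (FractionRing S) κ (e.symm (e z)) = _
    rw [e.symm_apply_apply]
  have hι : ι = (algebraMap Ω κ).comp (φ.comp C) := by
    ext a
    rw [h5]
    change _ = algebraMap Ω κ (φ (C a))
    rw [← he, hal]
  have hy : y = fun i => algebraMap Ω κ (φ (X i)) := by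
    funext i
    rw [h6, ← he, hal]
  have hc : (algebraMap Ω κ).comp (e : FractionRing S →+* Ω) =
      ((RingEquiv.refl κ : κ ≃+* κ) : κ →+* κ).comp (algebraMap (FractionRing S) κ) := by
    ext z
    exact hal z
  refine ⟨κ, i1, alg, ⟨?_, ?_⟩, γ, ?_, ?_⟩
  · exact Module.Finite.of_equiv_equiv e (RingEquiv.refl κ) hc
  · rw [← Algebra.finrank_eq_of_equiv_equiv e (RingEquiv.refl κ) hc]
    exact h4
  · rw [← hι, ← hy]
    exact ⟨h7, h8, h9, h10⟩
  · rw [← hι, ← hy]
    exact h11

/-- Let `p` be a prime and `2 ≤ n < p`; `(p + n - 1) / n` is `⌈p/n⌉`.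
(1) Let `Ω` be an infinite field of characteristic `p`, `F` a form of degree `n` in `n + 1` variables
over `Ω` and `y ≠ 0` any zero of `F` over `Ω`. Then over a finite extension `κ` of `Ω` of degree
prime to `p` there is a rational curve of degree at most `⌈p/n⌉` on `F = 0` through `y`.
(2) Let `K` be any field of characteristic `p`, `F` a form of degree `n` over `K`, and `y` a generic
point of `F = 0` with function field `Ω` (it exists if and only if `F` generates a prime ideal).
Then over a finite extension `κ` of `Ω` of degree prime to `p` there is a free rational curve of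
degree at most `⌈p/n⌉` on `F = 0` through `y`. -/
theorem result (p : ℕ) [Fact p.Prime] (n : ℕ) (h2 : 2 ≤ n) (hn : n < p) :
    (∀ (Ω : Type) [Field Ω] [Infinite Ω] [CharP Ω p] (F : MvPolynomial (Fin (n + 1)) Ω),
      F.IsHomogeneous n → ∀ y : Fin (n + 1) → Ω, y ≠ 0 → eval y F = 0 →
      ∃ (κ : Type) (_ : Field κ) (_ : Algebra Ω κ), PrimeTo p Ω κ ∧
        ∃ γ, IsCurve F (algebraMap Ω κ) ((p + n - 1) / n) (fun i => algebraMap Ω κ (y i)) γ) ∧
    (∀ (K : Type) [Field K] [CharP K p] (F : MvPolynomial (Fin (n + 1)) K), F.IsHomogeneous n →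
      ∀ (Ω : Type) [Field Ω] (ι : K →+* Ω) (y : Fin (n + 1) → Ω), IsGeneric F ι y →
      ∃ (κ : Type) (_ : Field κ) (_ : Algebra Ω κ), PrimeTo p Ω κ ∧
        ∃ γ, IsCurve F ((algebraMap Ω κ).comp ι) ((p + n - 1) / n)
            (fun i => algebraMap Ω κ (y i)) γ ∧
          IsFree F ((algebraMap Ω κ).comp ι) ((p + n - 1) / n)
            (fun i => algebraMap Ω κ (y i)) γ) := by
  obtain ⟨he, hne⟩ := LibSU9.ceil_bounds h2 hn
  refine ⟨?_, ?_⟩
  · intro Ω _ _ _ F hF y hy h0
    obtain ⟨κ, i1, i2, h3, h4, γ, h5, h6, h7, h8⟩ := LibSU9.curve_all p hn he hne F hF y hy h0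
    exact ⟨κ, i1, i2, ⟨h3, h4⟩, γ, h5, h6, h7, h8⟩
  · intro K _ _ F hF Ω _ ι y hy
    obtain ⟨κ, i1, i2, h3, γ, h4, h5⟩ := transfer p h2 hn F hF Ω (eval₂Hom ι y)
      (by
        ext g
        rw [RingHom.mem_ker, Ideal.mem_span_singleton]
        exact hy.1 g) hy.2
    have h6 : (eval₂Hom ι y).comp C = ι := by
      ext a
      simp
    simp only [eval₂Hom_X', h6] at h4 h5
    exact ⟨κ, i1, i2, h3, γ, h4, h5⟩

end Pool.Agent.Results.MP_407a6b_ag.SeparablyUniruled
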