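import Pool.Agent.LibQ9.MFin

/-!
MP_407a6b_ag, Q2 for all `p > n ≥ 4`: weak approximation at the places of good reduction for smooth
hypersurfaces of degree `n` in `P^n` over the function field `K` of a curve over an algebraically
closed field of characteristic `p > n`.
-/

set_option autoImplicit false

namespace Pool.Agent.Results.MP_407a6b_ag.WeakApproximationGoodReduction

open MvPolynomial

/-- The hypersurface `F = 0` is smooth over the algebraic closure of `K`: the partial derivatives of
`F` have no common zero there except the origin. -/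
def IsSmooth {K : Type} [Field K] {n : ℕ} (F : MvPolynomial (Fin n) K) : Prop :=
  ∀ x : Fin n → AlgebraicClosure K, (∀ i, aeval x (pderiv i F) = 0) → x = 0

/-- `A` is a place of `K` over `k`: a valuation ring of `K`, not `K`, which contains `k`. -/
def IsPlace (k : Type) {K : Type} [Field k] [Field K] [Algebra k K] (A : ValuationSubring K) : Prop :=
  (∀ c : k, algebraMap k K c ∈ A) ∧ A ≠ ⊤

/-- `G` is an equation over the valuation ring `A` of the hypersurface `F = 0` (a multiple of `F`)
whose reduction modulo the maximal ideal is smooth. -/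
def IsGoodModel {K : Type} [Field K] {n : ℕ} (F : MvPolynomial (Fin n) K) (A : ValuationSubring K)
    (G : MvPolynomial (Fin n) A) : Prop :=
  (∃ c : K, c ≠ 0 ∧ map (algebraMap A K) G = C c * F) ∧
    IsSmooth (map (IsLocalRing.residue A) G)

/-- `x` is a jet of order `N` of a section of `G = 0` over `A`: `x` is not zero modulo the maximal
ideal `m` and `G(x)` is zero modulo `m ^ N`. -/
def IsJet {K : Type} [Field K] {n : ℕ} (A : ValuationSubring K) (G : MvPolynomial (Fin n) A)
    (N : ℕ) (x : Fin n → A) : Prop :=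
  (∃ i, x i ∉ IsLocalRing.maximalIdeal A) ∧ eval x G ∈ IsLocalRing.maximalIdeal A ^ N

theorem result (p : ℕ) [Fact p.Prime] (n : ℕ) (hn : 4 ≤ n) (hp : n < p) (k K : Type) [Field k]
    [IsAlgClosed k] [CharP k p] [Field K] [Algebra k K] [Algebra.EssFiniteType k K]
    (htr : Algebra.trdeg k K = 1) (F : MvPolynomial (Fin (n + 1)) K) (hF : F.IsHomogeneous n)
    (hs : IsSmooth F) (r : ℕ) (A : Fin r → ValuationSubring K) (hA : Function.Injective A)
    (hpl : ∀ j, IsPlace k (A j)) (G : ∀ j, MvPolynomial (Fin (n + 1)) (A j))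
    (hG : ∀ j, IsGoodModel F (A j) (G j)) (N : ℕ) (x : ∀ j, Fin (n + 1) → A j)
    (hx : ∀ j, IsJet (A j) (G j) N (x j)) :
    ∃ X : Fin (n + 1) → K, X ≠ 0 ∧ eval X F = 0 ∧ ∀ j, ∃ Y : Fin (n + 1) → A j,
      (∀ i, (Y i : K) = X i) ∧ ∀ i, Y i - x j i ∈ IsLocalRing.maximalIdeal (A j) ^ N := by
  choose c hc hcG using fun j => (hG j).1
  exact Q9.weak_approx hn hp htr F hF hs A hA (fun j => (hpl j).1) (fun j => (hpl j).2) c hc G hcG
    (fun j => (hG j).2) N x (fun j => (hx j).1) fun j => (hx j).2

end Pool.Agent.Results.MP_407a6b_ag.WeakApproximationGoodReduction
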